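import Pool.Agent.Helper81.FC.Gap

set_option autoImplicit false

/-!
# The moments `L (h f ^ m)` of a nondegenerate weighted homogeneous polynomial have bounded gaps
-/

namespace Pool.Agent.Results.MP_04a253_al.BoundedGaps

open MvPolynomial

/-- the functional `L` with `L (U^k) = k!` -/
noncomputable def L {n : ℕ} (P : MvPolynomial (Fin n) ℂ) : ℂ :=
  ∑ s ∈ P.support, P.coeff s * ∏ i : Fin n, (((s i).factorial : ℕ) : ℂ)

/-- Let `n ≥ 1` and let `f` be weighted homogeneous of weight `k`, all the weights `w i` being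
positive and smaller than `k` (for instance a form of degree at least two), such that the only
common zero of the polynomials `U_i ∂f/∂U_i` is the origin. Then for every polynomial `h` and every
modulus `r` there is `D` such that, whenever `L (h f ^ m₀) ≠ 0`, every interval of `D` consecutive
integers beyond `m₀` contains some `m ≡ m₀ (mod r)` with `L (h f ^ m) ≠ 0`. -/
theorem result (n : ℕ) (hn : 0 < n) (w : Fin n → ℕ) (k : ℕ) (hw : ∀ i, 1 ≤ w i)
    (hwk : ∀ i, w i < k) (f : MvPolynomial (Fin n) ℂ) (hf : f.IsWeightedHomogeneous w k)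
    (hnd : ∀ x : Fin n → ℂ, (∀ i, x i * eval x (pderiv i f) = 0) → x = 0)
    (h : MvPolynomial (Fin n) ℂ) (r : ℕ) (hr : 1 ≤ r) :
    ∃ D : ℕ, ∀ m₀ M : ℕ, m₀ ≤ M → L (h * f ^ m₀) ≠ 0 →
      ∃ m : ℕ, M < m ∧ m ≤ M + D ∧ m ≡ m₀ [MOD r] ∧ L (h * f ^ m) ≠ 0 :=
  Pool.Agent.Helper81.FC.main_gap hn w k hw hwk f hf hnd h r hr

end Pool.Agent.Results.MP_04a253_al.BoundedGaps
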