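import Pool.Agent.Helper90.QF.Fin
import Pool.Agent.Helper30.QF.M_ABS
import Pool.Agent.Helper98.QF.M_UBA
import Pool.Agent.Helper52.QF.M_SOL
import Pool.Agent.Helper24.QF.M_ORD
import Pool.Agent.Helper38.QF.M_DEG
import Pool.Agent.Helper64.QF.M_SUR
import Pool.Agent.Helper26.QF.M_LIN
import Pool.Agent.Helper90.QF.M_LAM

set_option autoImplicit false

/-!
# The Factorial Conjecture for polynomials of degree at most two
-/

namespace Pool.Agent.Results.MP_04a253_al.DegreeTwo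

open MvPolynomial

/-- the functional `L` with `L (U^k) = k!` -/
noncomputable def L {n : ℕ} (P : MvPolynomial (Fin n) ℂ) : ℂ :=
  ∑ s ∈ P.support, P.coeff s * ∏ i : Fin n, (((s i).factorial : ℕ) : ℂ)

/-- Let `g_1, ..., g_q` be nonzero polynomials of total degree at most `2` in `n` variables and
`h_1, ..., h_q` arbitrary polynomials. If `∑ j, L (h_j g_j ^ m) = 0` for all large `m` in some
residue class modulo `r`, then this holds for all `m` in this residue class. In particular, for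
every nonzero polynomial `g` of total degree at most `2` and every `r ≥ 1`, there are infinitely
many `m` with `L ((g ^ r) ^ m) ≠ 0`. -/
theorem result :
    (∀ (n q : ℕ) (g h : Fin q → MvPolynomial (Fin n) ℂ),
      (∀ j, g j ≠ 0 ∧ (g j).totalDegree ≤ 2) →
      ∀ r m₀ M : ℕ, 1 ≤ r →
        (∀ m : ℕ, M ≤ m → m ≡ m₀ [MOD r] → ∑ j, L (h j * g j ^ m) = 0) →
        ∀ m : ℕ, m ≡ m₀ [MOD r] → ∑ j, L (h j * g j ^ m) = 0) ∧
    (∀ (n : ℕ) (g : MvPolynomial (Fin n) ℂ), g ≠ 0 → g.totalDegree ≤ 2 →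
      ∀ r M : ℕ, 1 ≤ r → ∃ m : ℕ, M ≤ m ∧ L ((g ^ r) ^ m) ≠ 0) := by
  have hL : ∀ (n : ℕ) (P : MvPolynomial (Fin n) ℂ),
      L P = Pool.Agent.Helper90.QF.LF Finset.univ P := fun n P =>
    (Pool.Agent.Helper90.QF.LF_univ P).symm
  have H : Pool.Agent.Helper90.QF.SumSt := fun n q g h hg M hM =>
    Pool.Agent.Helper90.QF.main_QF Pool.Agent.Helper30.QF.hABS Pool.Agent.Helper98.QF.hUBA
      Pool.Agent.Helper90.QF.hLAM
      (Pool.Agent.Helper52.QF.hSOL Pool.Agent.Helper98.QF.hUBA) Pool.Agent.Helper38.QF.hDEG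
      (Pool.Agent.Helper24.QF.hORD Pool.Agent.Helper98.QF.hUBA) Pool.Agent.Helper64.QF.hSUR
      Pool.Agent.Helper26.QF.hLIN n q g h hg M hM
  have key : ∀ (n q : ℕ) (g h : Fin q → MvPolynomial (Fin n) ℂ),
      (∀ j, g j ≠ 0 ∧ (g j).totalDegree ≤ 2) →
      ∀ r m₀ M : ℕ, 1 ≤ r →
        (∀ m : ℕ, M ≤ m → m ≡ m₀ [MOD r] → ∑ j, L (h j * g j ^ m) = 0) →
        ∀ m : ℕ, m ≡ m₀ [MOD r] → ∑ j, L (h j * g j ^ m) = 0 := by
    intro n q g h hg r m₀ M hr hM m hm
    simp only [hL] at hM ⊢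
    exact Pool.Agent.Helper90.QF.residue H n q g h hg r m₀ M hr hM m hm
  refine ⟨key, fun n g hg0 hg2 r M hr => ?_⟩
  by_contra hcon
  push Not at hcon
  have h1 := key n 1 (fun _ => g) (fun _ => 1) (fun _ => ⟨hg0, hg2⟩) r 0 (r * M) hr
    (fun m hm hmod => by
      obtain ⟨j, rfl⟩ : r ∣ m := (Nat.modEq_zero_iff_dvd).1 hmod
      have h3 := hcon j (Nat.le_of_mul_le_mul_left hm (by omega))
      rw [Fin.sum_univ_one, one_mul, pow_mul]
      exact h3) 0 rfl
  rw [Fin.sum_univ_one, pow_zero, one_mul] at h1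
  have h2 : L (1 : MvPolynomial (Fin n) ℂ) = 1 := by
    rw [show (1 : MvPolynomial (Fin n) ℂ) = monomial 0 1 from rfl, L, support_monomial,
      if_neg one_ne_zero, Finset.sum_singleton, coeff_monomial, if_pos rfl]
    simp
  rw [h2] at h1
  exact one_ne_zero h1

end Pool.Agent.Results.MP_04a253_al.DegreeTwo
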