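import Pool.Agent.Helper88.FC.Cor

set_option autoImplicit false

/-!
# The Factorial Conjecture and coordinate changes at the origin; nondegenerate critical points
-/

namespace Pool.Agent.Results.MP_04a253_al.LocalCoordinates

open Pool.Agent.Helper88.FC MvPolynomial

theorem result :
    -- the general statement
    (∀ (n : ℕ) (f h : MvPolynomial (Fin n) ℂ), (∀ s ∈ f.support, 2 ≤ s.degree) →
      ∀ φ : Fin n → MvPolynomial (Fin n) ℂ, (∀ i, (φ i).coeff 0 = 0) →
      (Matrix.of fun i j => (φ i).coeff (Finsupp.single j 1)).det ≠ 0 →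
      bind₁ φ f = h →
      ∀ (τ : ℚ) (w : h.support → ℚ), IsRep h.support τ w →
      (∀ i, ∑ s, w s * ((s.1 i : ℕ) : ℚ) = τ) →
      (∀ w' : h.support → ℚ, IsRep h.support τ w' → w' = w) →
      ∀ N : ℕ, ∃ m : ℕ, N ≤ m ∧ facL (f ^ m) ≠ 0) ∧
    -- in particular: a nondegenerate critical point at the origin, of critical value zero
    (∀ (n : ℕ) (f : MvPolynomial (Fin n) ℂ), 0 < n → constantCoeff f = 0 →
      (∀ i, constantCoeff (pderiv i f) = 0) →
      (Matrix.of fun i j => constantCoeff (pderiv i (pderiv j f))).det ≠ 0 →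
      ∀ N : ℕ, ∃ m : ℕ, N ≤ m ∧ facL (f ^ m) ≠ 0) := by
  refine ⟨?_, ?_⟩
  · intro n f h hf φ h0 h1 hh τ w hw hwτ hu N
    exact partB f h hf φ h0 h1 hh τ w hw hwτ hu N
  · intro n f hn h0 h1 h2 N
    exact cor_hess hn f h0 h1 h2 N

end Pool.Agent.Results.MP_04a253_al.LocalCoordinates
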