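import Pool.Agent.Helper91.FC.Cone

set_option autoImplicit false

/-!
# The Factorial Conjecture for convenient polynomials nondegenerate on their Newton boundary
-/

namespace Pool.Agent.Results.MP_04a253_al.NewtonNondegenerate

open MvPolynomial

/-- the functional `L` with `L (U^k) = k!` -/
noncomputable def L {n : ℕ} (P : MvPolynomial (Fin n) ℂ) : ℂ :=
  ∑ s ∈ P.support, P.coeff s * ∏ i : Fin n, (((s i).factorial : ℕ) : ℂ)

/-- Let `n ≥ 1` and let `f` be a polynomial without constant term which contains a pure power of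
each variable, and such that for all positive integer weights `w` the part `g` of minimal weight of
`f` (the polynomial of a compact face of the Newton polyhedron) has no critical point with all
coordinates nonzero. Then `L ((f ^ r) ^ m)` is nonzero for infinitely many `m`, for every `r ≥ 1`;
and for every polynomial `h` and every modulus `r`, a residue class with one `m` such that
`L (h f ^ m) ≠ 0` has infinitely many. -/
theorem result (n : ℕ) (hn : 0 < n) (f : MvPolynomial (Fin n) ℂ) (hf0 : coeff 0 f = 0)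
    (hconv : ∀ i : Fin n, ∃ d : ℕ, 1 ≤ d ∧ coeff (Finsupp.single i d) f ≠ 0)
    (hnd : ∀ (w : Fin n → ℕ) (κ : ℕ), (∀ i, 1 ≤ w i) →
      (∀ s ∈ f.support, κ ≤ ∑ i, w i * s i) → (∃ s ∈ f.support, ∑ i, w i * s i = κ) →
      ∀ u : Fin n → ℂ, (∀ i, u i ≠ 0) →
        ∃ i, eval u (pderiv i (weightedHomogeneousComponent w κ f)) ≠ 0) :
    (∀ r : ℕ, 1 ≤ r → ∀ M : ℕ, ∃ m : ℕ, M ≤ m ∧ L ((f ^ r) ^ m) ≠ 0) ∧
    (∀ (h : MvPolynomial (Fin n) ℂ) (r m₀ : ℕ), 1 ≤ r → L (h * f ^ m₀) ≠ 0 →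
      ∀ M : ℕ, ∃ m : ℕ, M ≤ m ∧ m ≡ m₀ [MOD r] ∧ L (h * f ^ m) ≠ 0) := by
  have hL : ∀ P : MvPolynomial (Fin n) ℂ, L P = Pool.Agent.Helper81.FC.Lf P :=
    fun P => Pool.Agent.Helper81.FC.LL_eq P
  obtain ⟨W, hW, M, hM, hpos, hWf, hcer⟩ :=
    Pool.Agent.Helper91.FC.newton_cer f hf0 hconv hnd
  have key : ∀ (h : MvPolynomial (Fin n) ℂ) (r m₀ : ℕ), 1 ≤ r → L (h * f ^ m₀) ≠ 0 →
      ∀ M : ℕ, ∃ m : ℕ, M ≤ m ∧ m ≡ m₀ [MOD r] ∧ L (h * f ^ m) ≠ 0 := by
    intro h r m₀ hr h0 M₀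
    rw [hL] at h0
    obtain ⟨m, h1, h2, h3⟩ := Pool.Agent.Helper91.FC.main hn f hf0 W hW M hM hpos hWf hcer h r hr
      m₀ h0 M₀
    exact ⟨m, h1, h2, by rw [hL]; exact h3⟩
  refine ⟨fun r hr M => ?_, key⟩
  have h1 : L (1 * f ^ 0) ≠ 0 := by
    have h2 : (1 * f ^ 0 : MvPolynomial (Fin n) ℂ) = monomial 0 1 := by
      rw [pow_zero, one_mul]; rfl
    rw [h2, L, support_monomial, if_neg one_ne_zero, Finset.sum_singleton, coeff_monomial,
      if_pos rfl]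
    simp
  obtain ⟨m, hm1, hm2, hm3⟩ := key 1 r 0 hr h1 (r * M)
  obtain ⟨j, rfl⟩ : r ∣ m := (Nat.modEq_zero_iff_dvd).1 hm2
  refine ⟨j, ?_, ?_⟩
  · exact Nat.le_of_mul_le_mul_left hm1 (by omega)
  · rw [← pow_mul]
    rwa [one_mul] at hm3

end Pool.Agent.Results.MP_04a253_al.NewtonNondegenerate
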